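import Pool.Agent.V1138.BO.Many
import Pool.Agent.V1138.BO.Eis
import Pool.Agent.Y152.RP.Fam

/-!
# MP_d83ecd_ag: Zilber-Pink for all but finitely many members with parameters in a backward orbit of
one-parameter families

The Shimura variety `Y(1)^n` is identified with `ℂ^n` by the elliptic modular function
`jj = j = E₄³ / Δ`.

**Families.** Let `K ⊂ ℂ` be a countable field. We consider algebraic families `X_t` of
subsets of `Y(1)^n` with one parameter `t`, given by
* a family `B_t ⊆ P^N` of projective algebraic sets, defined by forms `G k` with coefficients in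
  `K[t]`,
* quotients `f_i = A_i / B_i` of forms of the same degree `d_i` with coefficients in `K[t]`,
* functions `s_i` integral over `K[j]`, `R_i (s_i, j) = 0` with `R_i` monic in the first variable
  (level one: `R_i = S - J`, `s_i = j`; in general modular functions of any level without poles
  in the upper half plane), and polynomials `c_i ∈ K[t]`:
`X_t = {x | ∃ y ∈ B_t, ∃ s, ∀ i, R_i (s_i, x_i) = 0, c_i (t) s_i = A_i (y) / B_i (y)}`
(`scaledImage`), the image of a family of subvarieties of a product of modular curves of any levels.

**Parameters.** Let `φ_1, …, φ_r` and `g` be polynomials with integral coefficients such that all the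
composites `g ∘ φ_{i_1} ∘ … ∘ φ_{i_m}` are irreducible, and `deg g · deg φ_i ≥ 2` for all `i`. The
backward orbit of the roots of `g` is the set of the complex numbers `t` with
`g (φ_{i_1} (… (φ_{i_m} (t)))) = 0` for some word `i_1 … i_m` (`InBackwardOrbit`). For `r = 1` and
`g = X - β` these are the iterated preimages of `β` under a polynomial map. The composites are
irreducible for example (theorem `Pool.Agent.V1138.BO.eisenstein`) if `g = X - β` and the `φ_i` are
monic polynomials of degree at least two which are powers of `X` modulo a prime number `p`, with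
`p ∣ β` and `p ^ 2 ∤ φ_i (0) - β`. These parameters are algebraic numbers of unbounded degree
(the degree is `deg g` times the product of the degrees of the `φ_{i_k}`) and, for `deg φ_i ≥ 2`, of
bounded height. A rational number `α` is called wandering if for every `y` there are only finitely
many words with `φ_{i_1} (… (φ_{i_m} (α))) = y` (for `r = 1`: `α` is not preperiodic).

The family degenerates at the wandering rational values `t = α_1, …, α_M` of the parameter in
the following sense:
* no point of `B_{α_l}` lies on `m + 1` of the divisors of the `f_i` (at `t = α_l`), and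
* the `c_i` have zeros at `α_l`, of orders `e_{l i} > 0`, and these orders are independent:
  `q e_{l i} e_{l j} e_{l' i} e_{l' j}` is not a square for `l ≠ l'`, `i ≠ j`, `1 ≤ q ≤ T^8`, where
  `T` bounds the degrees of the `R_i` (`T = 1` for level one).

**Theorem.**
1. If `M ≥ n (n - 1) / 2 + 1` then for all but finitely many `t` in the backward orbit the set `X_t`
   has no atypical intersection with special subvarieties `Z` of `Y(1)^n`: every irreducible closed
   subset of `X_t ∩ Z` has dimension at most `dim Z + m - n`, and the same bound holds for the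
   transcendence degrees of the points of `X_t ∩ Z` over `K`.
2. If `m = 1` (families of curves) and only `M ≥ 4`, for any `n`, then for all but finitely many `t`
   in the backward orbit the set `X_t` has no point at all on special subvarieties of codimension at
   least two.

The constant coordinates of `Z` can be special points or integral over the ring generated by any
given finite subset `Γ` of `K`. The degree of `t` is unbounded. The local criterion is that of the
starting file `MP_d83ecd_ag.AlgebraicParameters`, which treats parameters of bounded degree, the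
numbers `t` with a rational power, and roots of unity.

**The arithmetic** (`Pool.Agent.V1138.BO`). If `α` is wandering then for all but finitely many words the
(homogenized) value at `α` of the minimal polynomial `g ∘ φ_{i_1} ∘ … ∘ φ_{i_m}` of the parameter
has a prime factor larger than a given number `D`. Up to powers of the denominator of `α` it is
`g_1 (y)` with `g_1 = g ∘ φ_{i_1}` and `y = φ_{i_2} (… (φ_{i_m} (α)))`, an `S`-integer, and by
the unit equation in the field generated by two roots of `g_1` there are only finitely many
`S`-integers `y` such that `g_1 (y)` is an `S`-unit.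
-/

set_option autoImplicit false

namespace Pool.Agent.Results.MP_d83ecd_ag.BackwardOrbits

open MvPolynomial
open Pool.Agent.V1138.BO (cmp act)
open Pool.Agent.Y152.RP.Fam (SpecialVariety NoAtypical InGeneralPosition scaledImage
  IndependentExponents)

/-- `t` is in the backward orbit of the roots of `g` under the semigroup generated by the
polynomials `φ i`: `g (φ_{i_1} (… (φ_{i_m} (t)))) = 0` for some word `i_1 … i_m`. -/
def InBackwardOrbit {r : ℕ} (φ : Fin r → Polynomial ℤ) (g : Polynomial ℤ) (t : ℂ) : Prop :=
  ∃ w : List (Fin r), Polynomial.aeval (act φ w t) g = 0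

/-- All composites `g ∘ φ_{i_1} ∘ … ∘ φ_{i_m}` are irreducible, and those with `m = 1` have degree at
least two. -/
def IrreducibleComposites {r : ℕ} (φ : Fin r → Polynomial ℤ) (g : Polynomial ℤ) : Prop :=
  (∀ w : List (Fin r), Irreducible (cmp φ g w)) ∧ ∀ i, 2 ≤ g.natDegree * (φ i).natDegree

/-- Every number is the image of `α` for only finitely many words. -/
def Wandering {r : ℕ} (φ : Fin r → Polynomial ℤ) (α : ℚ) : Prop :=
  ∀ y : ℚ, {w : List (Fin r) | act φ w α = y}.Finite

/-- One-parameter families which degenerate at sufficiently many wandering rational parameters: all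
but finitely many of the members with parameters in the backward orbit have no atypical
intersection with special subvarieties. -/
theorem result (K : Subfield ℂ) [Countable K] (κ : Type) [Finite κ] (N n m M T : ℕ)
    (G : κ → MvPolynomial (Fin (N + 1)) (Polynomial K)) (hG : ∀ k, ∃ e, (G k).IsHomogeneous e)
    (A B : Fin n → MvPolynomial (Fin (N + 1)) (Polynomial K)) (δ : Fin n → ℕ)
    (hA : ∀ i, (A i).IsHomogeneous (δ i)) (hB : ∀ i, (B i).IsHomogeneous (δ i))
    (R : Fin n → Polynomial (Polynomial K)) (hR : ∀ i, (R i).Monic)
    (hT : ∀ i u w, ((R i).coeff u).coeff w ≠ 0 → u ≤ T ∧ w ≤ T)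
    (c : Fin n → Polynomial K) (α : Fin M → ℚ)
    (hind : IndependentExponents T fun l i => (c i).rootMultiplicity ((α l : ℚ) : K))
    (hpos : ∀ l, InGeneralPosition ((α l : ℚ) : ℂ) m G A B) (Γ : Finset ℂ)
    (hΓ : ∀ γ ∈ Γ, γ ∈ K)
    (r : ℕ) (φ : Fin r → Polynomial ℤ) (g : Polynomial ℤ) (hφ : IrreducibleComposites φ g)
    (hα : ∀ l, Wandering φ (α l)) :
    (n.choose 2 + 1 ≤ M →
      {t : ℂ | InBackwardOrbit φ g t ∧ ¬ NoAtypical
        (algebraMap (Algebra.adjoin ℤ (Γ : Set ℂ)) ℂ) K m (scaledImage t G A B R c)}.Finite) ∧
    (m = 1 → 4 ≤ M →
      {t : ℂ | InBackwardOrbit φ g t ∧ ∃ (r : ℕ)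
        (Z : SpecialVariety (algebraMap (Algebra.adjoin ℤ (Γ : Set ℂ)) ℂ) n r),
        r + 2 ≤ n ∧ (scaledImage t G A B R c ∩ Z.locus).Nonempty}.Finite) := by
  obtain ⟨h1, h2⟩ := Pool.Agent.Y152.RP.Fam.family K κ N n m M T G hG A B δ hA hB R hR hT c α hind
    hpos Γ hΓ {t | InBackwardOrbit φ g t}
    (fun t ht => Pool.Agent.V1138.BO.alg_of_backward φ g hφ.1 t ht)
  exact ⟨fun hM => h1 hM fun D => Pool.Agent.V1138.BO.finite_badB D hM α φ g hφ.2 hφ.1 hα,
    fun hm hM => h2 hm hM fun D => Pool.Agent.V1138.BO.finite_badB D hM α φ g hφ.2 hφ.1 hα⟩

end Pool.Agent.Results.MP_d83ecd_ag.BackwardOrbits
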