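import Pool.Agent.V11322.ZF.Main
import Pool.Agent.TH526.ZL.E

/-!
# MP_d83ecd_ag: Zilber-Pink in products of modular curves with `m + 2` places (three for curves)

The Shimura variety `Y(1)^n` is identified with `ℂ^n` by the elliptic modular function
`jj = j = E₄³ / Δ`.

**Setting.** Let `Λ` be a subring of `ℂ` with countable fraction field (a ring `Λ` with an injection
`f : Λ → ℂ`), `B ⊆ P^N` a projective algebraic set given by forms `G k` over `Λ`, and
`f_i = A_i / B_i` quotients of forms of the same degree `d_i` over `Λ`, `i = 1, …, n`. Let `s_i` be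
functions integral over `Λ[j]`, `R_i (s_i, j) = 0` with `R_i` monic in the first variable, for
instance modular functions of any level without poles in the upper half plane (level one:
`R_i = S - J`, `s_i = j`), and let `c_i ∈ Λ`. Let
`X = {x | ∃ y ∈ B, ∃ s, ∀ i, R_i (s_i, x_i) = 0, c_i s_i = A_i (y) / B_i (y)} ⊆ Y(1)^n`
(`scaledImage`), the image of a subvariety of a product of modular curves.

**Local criterion with `m + 2` places.** Suppose there are `m + 2` good places (`GoodPlace`):
homomorphisms `red` from `Λ` to algebraically closed fields of any characteristic (reductions modulo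
prime ideals) such that
* the reductions of the divisors of the `f_i` are in general position: no point of the reduction of
  `B` lies on `m + 1` of them;
* the non-zero coefficients of the `R_i` do not reduce to `0`;
* `c_i` has the exact order `e_{l i} > 0` at the place,
and that the exponents are independent on polygons: if `U` is a nonempty set of places and
`i_l ≠ j_l` are coordinates for the places `l ∈ U` such that every coordinate occurs an even number
of times among the `i_l` and the `j_l` (the segments from `i_l` to `j_l` form closed polygons), then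
`∏_{l ∈ U} t_l e_{l i_l} e_{l j_l}` is not a square, for all `1 ≤ t_l ≤ T^4`, where `T` bounds the
degrees of the `R_i` (`T = 1` for level one). This is so if the `e_{l i}` are different primes
larger than `T^4` (last part of `result`).
Then `X` has no atypical intersection with special subvarieties `Z` of `Y(1)^n`: every irreducible
closed subset of `X ∩ Z` has dimension at most `dim Z + m - n`, and the same bound holds for the
transcendence degrees of the points of `X ∩ Z` over any countable field containing `Λ`. The constant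
coordinates of `Z` can be special points or arbitrary numbers integral over `Λ`.

The starting result `LocalCriterion` needs `n (n - 1) / 2 + 1` places. The number of places now
depends on the dimension only, not on the number `n` of coordinates: three places for curves in
`Y(1)^n`, for all `n`. (At one place a point of an atypical intersection gives a pair of coordinates
in the same class; two equal pairs are needed in `LocalCriterion`. Here the pairs for all places are
used: they form a graph which contains a polygon, and the relations along it give a square.)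

**Families** (second part of `result`). Let `X_t` be a one-parameter family of such sets, `B`, `f_i`
and `c_i` with coefficients in `K₀[t]` for a field `K₀ ⊂ ℂ`, the `R_i` over `K₀`. If at `m + 2`
numbers `α_l ∈ K₀` the polynomial `c_i` has a zero of order `e_{l i}`, with `e` independent on
polygons, and the divisors of the specializations of the `f_i` at `t = α_l` are in general position,
then for all `t = τ` transcendental over `K₀` the set `X_τ` has no atypical intersection with
special subvarieties.

**Almost all members** (third part). Let everything be defined over a countable field `K ⊂ ℂ` and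
let the divisors of the `f_i` be in general position. Then there is `D` such that `X_c` has no
atypical intersection for all vectors `c` of positive integers for which there are `m + 2` primes
`p_l > D` with exponents of the `p_l` in the `c_i` positive and independent on polygons; and if the
exponents `a_{l i}` are positive and independent on polygons, this is so for
`c_i = ∏_{l < m + 2} (k + l) ^ a_{l i}` and all `k ≤ H` up to a power of `log H` exceptions.
-/

namespace Pool.Agent.Results.MP_d83ecd_ag.FewPlaces

open H294ZP UpperHalfPlane MvPolynomial Pool.Agent.W282.ZP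

/-- A special subvariety of `Y(1)^n = ℂ^n` of dimension `r` (with more constants allowed): a map
`cls` from the coordinates onto `r` classes (`none` for constant coordinates), an integral matrix
of positive determinant for every coordinate, and a constant with `Ok` for every coordinate. -/
structure SpecialVariety (Ok : ℂ → Prop) (n r : ℕ) where
  cls : Fin n → Option (Fin r)
  surj : ∀ l : Fin r, ∃ i, cls i = some l
  mat : Fin n → Matrix (Fin 2) (Fin 2) ℤ
  det_pos : ∀ i, 0 < (mat i).det
  const : Fin n → ℂ
  allowed : ∀ i, Ok (const i)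

/-- The points of the special subvariety: the constant coordinates are the given constants, and the
coordinates of class `l` are `j (g_i z_l)`, with a free parameter `z_l` in the upper half plane. -/
def SpecialVariety.locus {Ok : ℂ → Prop} {n r : ℕ} (Z : SpecialVariety Ok n r) :
    Set (Fin n → ℂ) :=
  {x | ∃ z : Fin r → ℍ, ∀ i, (Z.cls i = none → x i = Z.const i) ∧
    ∀ l, Z.cls i = some l → ∃ w : ℍ,
      (w : ℂ) * (Z.mat i 1 0 * z l + Z.mat i 1 1) = Z.mat i 0 0 * z l + Z.mat i 0 1 ∧
      x i = jj w}

/-- The constants which are special points or integral over `Λ`. -/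
def SpecialOrIntegral {Λ : Type} [CommRing Λ] (f : Λ →+* ℂ) (x : ℂ) : Prop :=
  (∃ τ : ℍ, IsCM τ ∧ x = jj τ) ∨ f.IsIntegralElem x

/-- `y` is a vector of homogeneous coordinates, in a field `F` to which `Λ` is mapped by `f`, of a
point of the projective algebraic set `B` defined by the forms `G k`. -/
def OnB {Λ : Type} [CommRing Λ] {F : Type} [Field F] (f : Λ →+* F) {N : ℕ} {κ : Type}
    (G : κ → MvPolynomial (Fin (N + 1)) Λ) (y : Fin (N + 1) → F) : Prop :=
  y ≠ 0 ∧ ∀ k, eval₂ f y (G k) = 0

/-- The divisors of the `A i / B i` are in general position over `F`: no point of `B` lies on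
`m + 1` of them. -/
def InGeneralPosition {Λ : Type} [CommRing Λ] {F : Type} [Field F] (f : Λ →+* F) {N n : ℕ}
    {κ : Type} (m : ℕ) (G : κ → MvPolynomial (Fin (N + 1)) Λ)
    (A B : Fin n → MvPolynomial (Fin (N + 1)) Λ) : Prop :=
  ∀ I : Finset (Fin n), I.card = m + 1 → ∀ y : Fin (N + 1) → F, OnB f G y →
    ∃ i ∈ I, eval₂ f y (A i) * eval₂ f y (B i) ≠ 0

/-- The value at `(s, x)` of a polynomial `R = ∑ r_u (J) S^u` in two variables `S` and `J`. -/
noncomputable def valueAt {Λ : Type} [CommRing Λ] (f : Λ →+* ℂ) (R : Polynomial (Polynomial Λ))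
    (s x : ℂ) : ℂ :=
  Polynomial.eval₂ (Polynomial.eval₂RingHom f x) s R

/-- The subset `X` of `Y(1)^n`: the points `x` over which there are values `s_i` of the functions
on the factors of the product of modular curves, with `c_i s_i = A_i (y) / B_i (y)` for a point `y`
of `B`. -/
def scaledImage {Λ : Type} [CommRing Λ] (f : Λ →+* ℂ) {N n : ℕ} {κ : Type}
    (G : κ → MvPolynomial (Fin (N + 1)) Λ) (A B : Fin n → MvPolynomial (Fin (N + 1)) Λ)
    (R : Fin n → Polynomial (Polynomial Λ)) (c : Fin n → Λ) : Set (Fin n → ℂ) :=
  {x | ∃ y, OnB f G y ∧ ∃ s : Fin n → ℂ, ∀ i, valueAt f (R i) (s i) (x i) = 0 ∧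
    f (c i) * eval₂ f y (B i) * s i = eval₂ f y (A i)}

/-- `X` has no intersection of dimension larger than `r + m - n` with special subvarieties `Z` of
dimension `r`, whose constant coordinates satisfy `Ok`: every irreducible closed subset `A` of
`X ∩ Z` has dimension at most `r + m - n`, and every point of `X ∩ Z` has transcendence degree at
most `r + m - n` over `K`. -/
def NoAtypical (Ok : ℂ → Prop) (K : Subfield ℂ) {n : ℕ} (m : ℕ) (X : Set (Fin n → ℂ)) : Prop :=
  ∀ (r : ℕ) (Z : SpecialVariety Ok n r),
    (∀ A ⊆ X ∩ Z.locus, zcl A ⊆ A → (idealOf A).IsPrime →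
      zdim A + (n : Cardinal) ≤ (r : Cardinal) + (m : Cardinal)) ∧
    ∀ x ∈ X ∩ Z.locus, ∀ S : Finset (Fin n), AlgebraicIndependent K (fun i : S => x i) →
      S.card + n ≤ r + m

/-- Independence on polygons: if `U` is a nonempty set of places and `i l ≠ j l` are coordinates for
the places `l` in `U`, such that every coordinate `v` occurs an even number of times among them, then
the product of the `t l * e l (i l) * e l (j l)` over `U` is not a square, for all
`1 ≤ t l ≤ T ^ 4`. -/
def IndependentOnPolygons {n L : ℕ} (T : ℕ) (e : Fin L → Fin n → ℕ) : Prop :=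
  ∀ U : Finset (Fin L), U.Nonempty → ∀ (i j : Fin L → Fin n) (t : Fin L → ℕ),
    (∀ l ∈ U, i l ≠ j l ∧ 0 < t l ∧ t l ≤ T ^ 4) →
    (∀ v, Even ((U.filter fun l => i l = v).card + (U.filter fun l => j l = v).card)) →
    ¬ IsSquare (∏ l ∈ U, t l * (e l (i l) * e l (j l)))

/-- The exponents at the places are positive and independent on polygons. -/
def IndependentExponents {n L : ℕ} (T : ℕ) (e : Fin L → Fin n → ℕ) : Prop :=
  (∀ l i, 0 < e l i) ∧ IndependentOnPolygons T e

/-- A good place of the data: a homomorphism `red` to an algebraically closed field `F` over which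
the divisors are in general position, and under which the non-zero coefficients of the `R i` do not
vanish, such that `c i` has the exact order `e i` at the place, `a (c i) = b ϖ ^ (e i)` with
`red ϖ = 0` and `a`, `b` invertible at the place. -/
structure GoodPlace {Λ : Type} [CommRing Λ] {N n : ℕ} {κ : Type} (m : ℕ)
    (G : κ → MvPolynomial (Fin (N + 1)) Λ) (A B : Fin n → MvPolynomial (Fin (N + 1)) Λ)
    (R : Fin n → Polynomial (Polynomial Λ)) (c : Fin n → Λ) (e : Fin n → ℕ) where
  F : Type
  [field : Field F]
  [closed : IsAlgClosed F]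
  red : Λ →+* F
  general : InGeneralPosition red m G A B
  coeff_ne : ∀ i u w, ((R i).coeff u).coeff w ≠ 0 → red (((R i).coeff u).coeff w) ≠ 0
  ϖ : Λ
  red_ϖ : red ϖ = 0
  order : ∀ i, ∃ a b : Λ, red a ≠ 0 ∧ red b ≠ 0 ∧ a * c i = b * ϖ ^ e i

theorem main {Λ : Type} [CommRing Λ] (f : Λ →+* ℂ) (hf : Function.Injective f) (K : Subfield ℂ)
    [Countable K] (hK : ∀ a, f a ∈ K) {κ : Type} {N n m T : ℕ}
    (G : κ → MvPolynomial (Fin (N + 1)) Λ) (hG : ∀ k, ∃ e, (G k).IsHomogeneous e)
    (A B : Fin n → MvPolynomial (Fin (N + 1)) Λ) (d : Fin n → ℕ)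
    (hA : ∀ i, (A i).IsHomogeneous (d i)) (hB : ∀ i, (B i).IsHomogeneous (d i))
    (R : Fin n → Polynomial (Polynomial Λ)) (hR : ∀ i, (R i).Monic)
    (hT : ∀ i u w, ((R i).coeff u).coeff w ≠ 0 → u ≤ T ∧ w ≤ T)
    (c : Fin n → Λ) (e : Fin (m + 2) → Fin n → ℕ) (he : IndependentExponents T e)
    (P : ∀ l, GoodPlace m G A B R c (e l)) :
    NoAtypical (SpecialOrIntegral f) K m (scaledImage f G A B R c) := by
  classical
  have hdom : IsDomain Λ := hf.isDomain f
  let _ : Algebra Λ ℂ := f.toAlgebra
  let fK : Λ →+* K := f.codRestrict K hK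
  let _ : Algebra Λ K := fK.toAlgebra
  have hst : IsScalarTower Λ K ℂ := IsScalarTower.of_algebraMap_eq fun _ => rfl
  have hfK : Function.Injective (algebraMap Λ K) := fun a b h => hf (congrArg Subtype.val h)
  intro r Z
  have hN : ∀ i, 0 < (Z.mat i).det.toNat := by
    intro i
    have := Z.det_pos i
    omega
  have hpt : ∀ x ∈ scaledImage f G A B R c ∩ Z.locus, ∀ S : Finset (Fin n),
      AlgebraicIndependent K (fun i : S => x i) → S.card + n ≤ r + m := by
    rintro x ⟨⟨y, hy, s, hxy⟩, hxZ⟩ S hS
    obtain ⟨z, hz⟩ := hxZ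
    let inst : ∀ l, Field (P l).F := fun l => (P l).field
    refine V11322.ZF.criterionF (m := m) G hG A B d hA hB R hR hT c (fun l => RingHom.ker (P l).red)
      (fun l => ?_) ?_ ?_ (fun l => (P l).ϖ) (fun l => ?_) e he.1 ?_ he.2 Z.cls
      (fun i => (Z.mat i).det.toNat) x s hN ?_ ?_
      (fun i => ?_) y hy.1 hy.2 (fun i => (hxy i).2) S (hS.restrictScalars hfK)
    · exact RingHom.ker_isPrime (P l).red
    · intro l F _ φ hφ I hI y' hy0 hyG
      have := (P l).closed
      by_contra hcon
      push Not at hcon
      apply hy0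
      refine TH526.ZL.transfer
        (fun b : κ ⊕ I => Sum.elim (fun k => G k) (fun i : I => A i * B i) b) (P l).red ?_ φ hφ y' ?_
      · intro y'' hy''
        by_contra h0
        obtain ⟨i, hi, h1⟩ := (P l).general I hI y'' ⟨h0, fun k => hy'' (Sum.inl k)⟩
        apply h1
        have h2 := hy'' (Sum.inr ⟨i, hi⟩)
        simp only [Sum.elim_inr, eval₂_mul] at h2
        exact h2
      · rintro (k | i)
        · exact hyG k
        · simp only [Sum.elim_inr, eval₂_mul]
          exact hcon i i.2
    · intro l i u w h0 h1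
      exact (P l).coeff_ne i u w h0 h1
    · exact (P l).red_ϖ
    · intro l i
      obtain ⟨a, b, ha, hb, hab⟩ := (P l).order i
      exact ⟨a, b, ha, hb, hab⟩
    · intro i hi
      rw [(hz i).1 hi]
      rcases Z.allowed i with ⟨τ, hτ, hc⟩ | h
      · rw [hc]
        exact (singular_modulus_integral τ hτ).tower_top
      · exact h
    · intro i j l hi hj
      obtain ⟨w, hw, hxw⟩ := (hz i).2 l hi
      obtain ⟨w', hw', hxw'⟩ := (hz j).2 l hj
      refine ⟨?_, ?_⟩
      · obtain ⟨a, b, c, d, e1, e2⟩ := isogeny_rel (Z.det_pos i) hw hw'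
        rw [hxw, hxw']
        exact isogenous_integral w w' a b c d (by
          rw [e1]
          exact mul_pos (Z.det_pos i) (Z.det_pos j)) e2
      · rw [← Int.toNat_mul (Z.det_pos i).le (Z.det_pos j).le, ← eval_relPoly]
        exact eval_relPoly_eq_zero (Z.det_pos i) (Z.det_pos j) hw hw' hxw hxw'
    · exact (hxy i).1
  refine ⟨?_, hpt⟩
  intro W hW hcl hprime
  obtain ⟨x, hxW, T, hT, hdim⟩ := Pool.Agent.W466.ZC.generic_dim K W hprime hcl
  have h2 := hpt x (hW hxW) T hT
  calc zdim W + (n : Cardinal) ≤ (T.card : Cardinal) + (n : Cardinal) := by gcongr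
    _ = ((T.card + n : ℕ) : Cardinal) := by push_cast; rfl
    _ ≤ ((r + m : ℕ) : Cardinal) := by exact_mod_cast h2
    _ = (r : Cardinal) + (m : Cardinal) := by push_cast; rfl

/-- Scalings by vectors of positive integers with `m + 2` large primes. -/
theorem mainScaled (K : Subfield ℂ) [Countable K] {κ : Type} {N n m T : ℕ}
    (G : κ → MvPolynomial (Fin (N + 1)) K) (hG : ∀ k, ∃ e, (G k).IsHomogeneous e)
    (A B : Fin n → MvPolynomial (Fin (N + 1)) K) (d : Fin n → ℕ)
    (hA : ∀ i, (A i).IsHomogeneous (d i)) (hB : ∀ i, (B i).IsHomogeneous (d i))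
    (hpos : InGeneralPosition K.subtype m G A B)
    (R : Fin n → Polynomial (Polynomial K)) (hR : ∀ i, (R i).Monic)
    (hT : ∀ i u w, ((R i).coeff u).coeff w ≠ 0 → u ≤ T ∧ w ≤ T)
    (Γ : Finset ℂ) (hΓ : ∀ γ ∈ Γ, γ ∈ K) :
    ∃ D : ℕ, ∀ c : Fin n → ℕ, V11322.ZF.SpreadF (m + 2) T D c →
      NoAtypical (AllowedConst Γ) K m (scaledImage K.subtype G A B R fun i => ((c i : ℕ) : K)) := by
  classical
  obtain ⟨D, hD⟩ := V11322.ZF.mainFK K (m := m) G hG A B d hA hB
    (by
      intro I hI y hyG hyI
      by_contra hy0
      obtain ⟨i, hi, h1⟩ := hpos I hI y ⟨hy0, hyG⟩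
      apply h1
      have h2 := hyI i hi
      exact h2) R hR T hT Γ hΓ
  refine ⟨D, fun c hc r Z => ?_⟩
  have hN : ∀ i, 0 < (Z.mat i).det.toNat := by
    intro i
    have := Z.det_pos i
    omega
  have hpt : ∀ x ∈ scaledImage K.subtype G A B R (fun i => ((c i : ℕ) : K)) ∩ Z.locus,
      ∀ S : Finset (Fin n), AlgebraicIndependent K (fun i : S => x i) → S.card + n ≤ r + m := by
    rintro x ⟨⟨y, hy, s, hxy⟩, hxZ⟩ S hS
    obtain ⟨z, hz⟩ := hxZ
    refine hD c hc r Z.cls (fun i => (Z.mat i).det.toNat) x s hN ?_ ?_
      (fun i => (hxy i).1) y hy.1 hy.2 (fun i => ?_) S hS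
    · intro i hi
      rw [(hz i).1 hi]
      exact (Z.allowed i).isIntegral
    · intro i j l hi hj
      obtain ⟨w, hw, hxw⟩ := (hz i).2 l hi
      obtain ⟨w', hw', hxw'⟩ := (hz j).2 l hj
      refine ⟨?_, ?_⟩
      · obtain ⟨a, b, c, d, e1, e2⟩ := isogeny_rel (Z.det_pos i) hw hw'
        rw [hxw, hxw']
        exact isogenous_integral w w' a b c d (by
          rw [e1]
          exact mul_pos (Z.det_pos i) (Z.det_pos j)) e2
      · rw [← Int.toNat_mul (Z.det_pos i).le (Z.det_pos j).le, ← eval_relPoly]
        exact eval_relPoly_eq_zero (Z.det_pos i) (Z.det_pos j) hw hw' hxw hxw'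
    · have h1 := (hxy i).2
      rw [map_natCast] at h1
      exact h1
  refine ⟨?_, hpt⟩
  intro W hW hcl hprime
  obtain ⟨x, hxW, T, hT, hdim⟩ := Pool.Agent.W466.ZC.generic_dim K W hprime hcl
  have h2 := hpt x (hW hxW) T hT
  calc zdim W + (n : Cardinal) ≤ (T.card : Cardinal) + (n : Cardinal) := by gcongr
    _ = ((T.card + n : ℕ) : Cardinal) := by push_cast; rfl
    _ ≤ ((r + m : ℕ) : Cardinal) := by exact_mod_cast h2
    _ = (r : Cardinal) + (m : Cardinal) := by push_cast; rfl

/-- the value of a polynomial at a complex number -/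
noncomputable def evalAt (K₀ : Subfield ℂ) (z : ℂ) : Polynomial K₀ →+* ℂ :=
  (Polynomial.aeval z : Polynomial K₀ →ₐ[K₀] ℂ).toRingHom

/-- The first part is the local criterion, the second part the application to the transcendental
members of one-parameter families, the third part is about scalings by integers; the last part gives
examples of independent exponents. -/
theorem result :
    (∀ (Λ : Type) [CommRing Λ] (f : Λ →+* ℂ), Function.Injective f →
      ∀ (K : Subfield ℂ) [Countable K], (∀ a, f a ∈ K) →
      ∀ (κ : Type) (N n m T : ℕ) (G : κ → MvPolynomial (Fin (N + 1)) Λ),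
      (∀ k, ∃ e, (G k).IsHomogeneous e) →
      ∀ (A B : Fin n → MvPolynomial (Fin (N + 1)) Λ) (d : Fin n → ℕ),
      (∀ i, (A i).IsHomogeneous (d i)) → (∀ i, (B i).IsHomogeneous (d i)) →
      ∀ R : Fin n → Polynomial (Polynomial Λ), (∀ i, (R i).Monic) →
      (∀ i u w, ((R i).coeff u).coeff w ≠ 0 → u ≤ T ∧ w ≤ T) →
      ∀ (c : Fin n → Λ) (e : Fin (m + 2) → Fin n → ℕ), IndependentExponents T e →
      (∀ l, Nonempty (GoodPlace m G A B R c (e l))) →
      NoAtypical (SpecialOrIntegral f) K m (scaledImage f G A B R c)) ∧
    (∀ (K₀ : Subfield ℂ) (κ : Type) (N n m T : ℕ)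
      (G : κ → MvPolynomial (Fin (N + 1)) (Polynomial K₀)),
      (∀ k, ∃ e, (G k).IsHomogeneous e) →
      ∀ (A B : Fin n → MvPolynomial (Fin (N + 1)) (Polynomial K₀)) (d : Fin n → ℕ),
      (∀ i, (A i).IsHomogeneous (d i)) → (∀ i, (B i).IsHomogeneous (d i)) →
      ∀ R : Fin n → Polynomial (Polynomial K₀), (∀ i, (R i).Monic) →
      (∀ i u w, ((R i).coeff u).coeff w ≠ 0 → u ≤ T ∧ w ≤ T) →
      ∀ (c : Fin n → Polynomial K₀) (α : Fin (m + 2) → K₀),
      IndependentExponents T (fun l i => (c i).rootMultiplicity (α l)) →
      (∀ l, InGeneralPosition (evalAt K₀ (α l)) m G A B) →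
      ∀ τ : ℂ, Transcendental K₀ τ → ∀ (K : Subfield ℂ) [Countable K], K₀ ≤ K → τ ∈ K →
      NoAtypical (SpecialOrIntegral (evalAt K₀ τ)) K m (scaledImage (evalAt K₀ τ) G A B
        (fun i => (R i).map (Polynomial.mapRingHom Polynomial.C)) c)) ∧
    (∀ (K : Subfield ℂ) [Countable K] (κ : Type) (N n m T : ℕ)
      (G : κ → MvPolynomial (Fin (N + 1)) K), (∀ k, ∃ e, (G k).IsHomogeneous e) →
      ∀ (A B : Fin n → MvPolynomial (Fin (N + 1)) K) (d : Fin n → ℕ),
      (∀ i, (A i).IsHomogeneous (d i)) → (∀ i, (B i).IsHomogeneous (d i)) →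
      InGeneralPosition K.subtype m G A B →
      ∀ R : Fin n → Polynomial (Polynomial K), (∀ i, (R i).Monic) →
      (∀ i u w, ((R i).coeff u).coeff w ≠ 0 → u ≤ T ∧ w ≤ T) →
      ∀ Γ : Finset ℂ, (∀ γ ∈ Γ, γ ∈ K) →
      ∃ D : ℕ,
        (∀ (c : Fin n → ℕ) (p : Fin (m + 2) → ℕ), (∀ l, (p l).Prime ∧ D < p l) →
          IndependentExponents T (fun l i => (c i).factorization (p l)) →
          NoAtypical (AllowedConst Γ) K m
            (scaledImage K.subtype G A B R fun i => ((c i : ℕ) : K))) ∧
        ∀ a : Fin (m + 2) → Fin n → ℕ, IndependentExponents T a →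
          ∀ H : ℕ, Set.ncard {k : ℕ | 1 ≤ k ∧ k ≤ H ∧
            ¬ NoAtypical (AllowedConst Γ) K m (scaledImage K.subtype G A B R
              fun i => ((∏ l : Fin (m + 2), (k + (l : ℕ)) ^ a l i : ℕ) : K))} ≤
            (m + 2) * (Nat.log 2 (H + (m + 2)) + 1) ^ (D + (m + 2) + 1)) ∧
    ∀ (n L T : ℕ) (e : Fin L → Fin n → ℕ), (∀ l i, (e l i).Prime ∧ T ^ 4 < e l i) →
      (∀ l i l' i', e l i = e l' i' → l = l' ∧ i = i') → IndependentExponents T e := by
  classical
  refine ⟨?_, ?_, ?_, ?_⟩
  · intro Λ _ f hf K _ hK κ N n m T G hG A B d hA hB R hR hT c e he P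
    exact main f hf K hK G hG A B d hA hB R hR hT c e he fun l => (P l).some
  · intro K₀ κ N n m T G hG A B d hA hB R hR hT c α he hpos τ hτ K _ hK₀ hτK
    have hf : Function.Injective (evalAt K₀ τ) := transcendental_iff_injective.1 hτ
    refine main (evalAt K₀ τ) hf K ?_ G hG A B d hA hB _ (fun i => (hR i).map _) ?_ c
      (fun l i => (c i).rootMultiplicity (α l)) he fun l => ?_
    · intro a
      show Polynomial.aeval τ a ∈ K
      rw [Polynomial.aeval_eq_sum_range]
      refine sum_mem fun i _ => ?_
      rw [Algebra.smul_def]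
      exact mul_mem (hK₀ (a.coeff i).2) (pow_mem hτK i)
    · intro i u w h0
      rw [Polynomial.coeff_map, Polynomial.coe_mapRingHom, Polynomial.coeff_map] at h0
      exact hT i u w fun h1 => h0 (by rw [h1, map_zero])
    · have hev : ∀ a : K₀, evalAt K₀ (α l) (Polynomial.C a) = (a : ℂ) := by
        intro a
        show Polynomial.aeval _ (Polynomial.C a) = _
        rw [Polynomial.aeval_C]
        rfl
      have hev2 : ∀ p : Polynomial K₀, evalAt K₀ (α l) p = ((p.eval (α l) : K₀) : ℂ) := by
        intro p
        show Polynomial.aeval (algebraMap K₀ ℂ (α l)) p = _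
        rw [Polynomial.aeval_algebraMap_apply]
        rfl
      exact
        { F := ℂ
          red := evalAt K₀ (α l)
          general := hpos l
          coeff_ne := by
            intro i u w h0
            rw [Polynomial.coeff_map, Polynomial.coe_mapRingHom, Polynomial.coeff_map] at h0 ⊢
            rw [hev]
            intro h1
            apply h0
            rw [show ((R i).coeff u).coeff w = 0 from Subtype.ext h1, map_zero]
          ϖ := Polynomial.X - Polynomial.C (α l)
          red_ϖ := by
            rw [hev2, Polynomial.eval_sub, Polynomial.eval_X, Polynomial.eval_C, sub_self]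
            rfl
          order := by
            intro i
            have hc0 : c i ≠ 0 := by
              intro h0
              have := he.1 l i
              change 0 < (c i).rootMultiplicity (α l) at this
              rw [h0, Polynomial.rootMultiplicity_zero] at this
              exact lt_irrefl _ this
            obtain ⟨q, hq1, hq2⟩ :=
              Polynomial.exists_eq_pow_rootMultiplicity_mul_and_not_dvd (c i) hc0 (α l)
            refine ⟨1, q, ?_, ?_, ?_⟩
            · rw [map_one]
              exact one_ne_zero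
            · rw [hev2]
              intro h1
              apply hq2
              rw [Polynomial.dvd_iff_isRoot, Polynomial.IsRoot.def]
              exact Subtype.ext h1
            · rw [one_mul]
              conv_lhs => rw [hq1]
              ring }
  · intro K _ κ N n m T G hG A B d hA hB hpos R hR hT Γ hΓ
    obtain ⟨D, hD⟩ := mainScaled K G hG A B d hA hB hpos R hR hT Γ hΓ
    refine ⟨D, fun c p hp he => hD c ⟨p, hp, he.1, he.2⟩, fun a ha H => ?_⟩
    refine (Set.ncard_le_ncard ?_ ((Set.finite_Icc 1 H).subset ?_)).trans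
      (V11322.ZF.countF (n := n) (L := m + 2) (T := T) D a ha.1 ha.2 H)
    · rintro k ⟨h1, h2, h3⟩
      refine ⟨h1, h2, fun h4 => h3 ?_⟩
      exact hD _ h4
    · rintro k ⟨h1, h2, -⟩
      exact ⟨h1, h2⟩
  · intro n L T e he hinj
    exact ⟨fun l i => (he l i).1.pos, V11322.ZF.cyc_of_primes e he hinj⟩

end Pool.Agent.Results.MP_d83ecd_ag.FewPlaces
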