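import Pool.Agent.V1138.SP.Many
import Pool.Agent.Y152.RP.Fam

/-!
# MP_d83ecd_ag: Zilber-Pink for all but finitely many members with parameters of sparse minimal
polynomial of one-parameter families

The Shimura variety `Y(1)^n` is identified with `ℂ^n` by the elliptic modular function
`jj = j = E₄³ / Δ`.

**Families.** Let `K ⊂ ℂ` be a countable field. We consider algebraic families `X_t` of
subsets of `Y(1)^n` with one parameter `t`, given by
* a family `B_t ⊆ P^N` of projective algebraic sets, defined by forms `G k` with coefficients in
  `K[t]`,
* quotients `f_i = A_i / B_i` of forms of the same degree `d_i` with coefficients in `K[t]`,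
* functions `s_i` integral over `K[j]`, `R_i (s_i, j) = 0` with `R_i` monic in the first variable
  (level one: `R_i = S - J`, `s_i = j`; in general modular functions of any level without poles
  in the upper half plane), and polynomials `c_i ∈ K[t]`:
`X_t = {x | ∃ y ∈ B_t, ∃ s, ∀ i, R_i (s_i, x_i) = 0, c_i (t) s_i = A_i (y) / B_i (y)}`
(`scaledImage`), the image of a family of subvarieties of a product of modular curves of any levels.

The family degenerates at the distinct rational values `t = α_1, …, α_M ≠ 0` of the parameter in the
following sense:
* no point of `B_{α_l}` lies on `m + 1` of the divisors of the `f_i` (at `t = α_l`), and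
* the `c_i` have zeros at `α_l`, of orders `e_{l i} > 0`, and these orders are independent:
  `q e_{l i} e_{l j} e_{l' i} e_{l' j}` is not a square for `l ≠ l'`, `i ≠ j`, `1 ≤ q ≤ T^8`, where
  `T` bounds the degrees of the `R_i` (`T = 1` for level one).

**Theorem.** Let `S_s` be the set of the algebraic numbers `t` whose minimal polynomial (the
irreducible polynomial with integral coefficients with the root `t`) has at most `s + 1` terms.
1. If `M ≥ n (n - 1) / 2 + 1 + 6 s (s + 1)` then for all but finitely many `t ∈ S_s` the set `X_t` has
   no atypical intersection with special subvarieties `Z` of `Y(1)^n`: every irreducible closed subset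
   of `X_t ∩ Z` has dimension at most `dim Z + m - n`, and the same bound holds for the transcendence
   degrees of the points of `X_t ∩ Z` over `K`.
2. If `m = 1` (families of curves) and only `M ≥ 4 + 6 s (s + 1)`, for any `n`, then for all but
   finitely many `t ∈ S_s` the set `X_t` has no point at all on special subvarieties of codimension at
   least two.

The constant coordinates of `Z` can be special points or integral over the ring generated by any
given finite subset `Γ` of `K`.

The degree of `t` and the coefficients of the minimal polynomial are arbitrary, and the number of the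
degenerate members depends only on the number of the terms. For `s = 2` the parameters are all the
roots of irreducible trinomials and binomials. The numbers of degree at most `d` have minimal
polynomials with at most `d + 1` terms; for these and for the numbers `t` with a rational power the
starting file `MP_d83ecd_ag.AlgebraicParameters` proves the conclusion.

**The arithmetic** (`Pool.Agent.V1138.SP`). Let `α_1, …, α_C` be distinct positive rational numbers,
`C = 3 s (s + 1) + 1`, and `D` a number. For all but finitely many `t ≠ 0` whose minimal polynomial
has `s + 1` terms its (homogenized) value at one of the `α_l` has a prime factor larger than `D`: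
`t` is not `S`-integral relative to `α_1, …, α_C`. Here both the exponents and
the coefficients of the minimal polynomial `F = ∑ a_i X^(N_i)` vary, so that the coefficients are not
units and the unit equation does not apply directly. In the field of germs of an infinite
sequence of counterexamples, elements of the form `c u`, `u` a germ of `S`-units with exponents
growing linearly at prescribed rates, `c` a germ of small height, are graded by the rates;
different degrees are linearly independent (subspace theorem, `Pool.Agent.TH551.SU`). The equations
`∑ a_i α_l^(N_i) = w_l`, `w_l` a unit, are solved for the `a_i` by Cramer's rule from `s + 1` of them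
(the rule of signs of Descartes shows that the determinants do not vanish) and inserted into the
others. The leading terms of the resulting identities between units show that all the `a_i` have the
same degree and all the `N_i` are small, so that the heights of the polynomials are negligible
with respect to themselves, a contradiction.
-/

set_option autoImplicit false

namespace Pool.Agent.Results.MP_d83ecd_ag.SparseParameters

open MvPolynomial
open Pool.Agent.Y152.RP.Fam (SpecialVariety NoAtypical InGeneralPosition scaledImage
  IndependentExponents)

/-- The minimal polynomial of `t` over the integers has at most `s + 1` terms. -/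
def SparseMinimalPolynomial (s : ℕ) (t : ℂ) : Prop :=
  ∃ F : Polynomial ℤ, Irreducible F ∧ F.support.card ≤ s + 1 ∧ Polynomial.aeval t F = 0

/-- One-parameter families which degenerate at sufficiently many rational parameters: all but
finitely many of the members with parameters with sparse minimal polynomial have no atypical
intersection with special subvarieties. -/
theorem result (K : Subfield ℂ) [Countable K] (κ : Type) [Finite κ] (N n m M T : ℕ)
    (G : κ → MvPolynomial (Fin (N + 1)) (Polynomial K)) (hG : ∀ k, ∃ e, (G k).IsHomogeneous e)
    (A B : Fin n → MvPolynomial (Fin (N + 1)) (Polynomial K)) (δ : Fin n → ℕ)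
    (hA : ∀ i, (A i).IsHomogeneous (δ i)) (hB : ∀ i, (B i).IsHomogeneous (δ i))
    (R : Fin n → Polynomial (Polynomial K)) (hR : ∀ i, (R i).Monic)
    (hT : ∀ i u w, ((R i).coeff u).coeff w ≠ 0 → u ≤ T ∧ w ≤ T)
    (c : Fin n → Polynomial K) (α : Fin M → ℚ) (hinj : Function.Injective α) (hα : ∀ l, α l ≠ 0)
    (hind : IndependentExponents T fun l i => (c i).rootMultiplicity ((α l : ℚ) : K))
    (hpos : ∀ l, InGeneralPosition ((α l : ℚ) : ℂ) m G A B) (Γ : Finset ℂ)
    (hΓ : ∀ γ ∈ Γ, γ ∈ K) (s : ℕ) :
    (n.choose 2 + 1 + 6 * s * (s + 1) ≤ M →
      {t : ℂ | SparseMinimalPolynomial s t ∧ ¬ NoAtypical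
        (algebraMap (Algebra.adjoin ℤ (Γ : Set ℂ)) ℂ) K m (scaledImage t G A B R c)}.Finite) ∧
    (m = 1 → 4 + 6 * s * (s + 1) ≤ M →
      {t : ℂ | SparseMinimalPolynomial s t ∧ ∃ (r : ℕ)
        (Z : SpecialVariety (algebraMap (Algebra.adjoin ℤ (Γ : Set ℂ)) ℂ) n r),
        r + 2 ≤ n ∧ (scaledImage t G A B R c ∩ Z.locus).Nonempty}.Finite) := by
  have halg : ∀ t ∈ {t : ℂ | SparseMinimalPolynomial s t}, IsAlgebraic ℤ t := by
    rintro t ⟨F, hF, -, hFt⟩
    exact ⟨F, hF.ne_zero, hFt⟩
  obtain ⟨h1, h2⟩ := Pool.Agent.Y152.RP.Fam.family K κ N n m M T G hG A B δ hA hB R hR hT c α hind
    hpos Γ hΓ _ halg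
  exact ⟨fun hM => h1 (by omega) fun D => Pool.Agent.V1138.SP.finite_badS D s hM α hinj hα,
    fun hm hM => h2 hm (by omega) fun D => Pool.Agent.V1138.SP.finite_badS D s hM α hinj hα⟩

end Pool.Agent.Results.MP_d83ecd_ag.SparseParameters
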