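import Pool.Agent.V1138.FZ.Ex
import Pool.Agent.Y152.RP.Fam

/-!
# MP_d83ecd_ag: Zilber-Pink for all but finitely many members with values of a rational function at
roots of unity as parameters, of one-parameter families

The Shimura variety `Y(1)^n` is identified with `ℂ^n` by the elliptic modular function
`jj = j = E₄³ / Δ`.

**Families.** Let `K ⊂ ℂ` be a countable field. We consider algebraic families `X_t` of
subsets of `Y(1)^n` with one parameter `t`, given by
* a family `B_t ⊆ P^N` of projective algebraic sets, defined by forms `G k` with coefficients in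
  `K[t]`,
* quotients `f_i = A_i / B_i` of forms of the same degree `d_i` with coefficients in `K[t]`,
* functions `s_i` integral over `K[j]`, `R_i (s_i, j) = 0` with `R_i` monic in the first variable
  (level one: `R_i = S - J`, `s_i = j`; in general modular functions of any level without poles
  in the upper half plane), and polynomials `c_i ∈ K[t]`:
`X_t = {x | ∃ y ∈ B_t, ∃ s, ∀ i, R_i (s_i, x_i) = 0, c_i (t) s_i = A_i (y) / B_i (y)}`
(`scaledImage`), the image of a family of subvarieties of a product of modular curves of any levels.

**Parameters.** Let `f = P / Q` be a rational function, where `P` and `Q` are coprime polynomials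
with integral coefficients. The parameters are the values `t = f (ζ)` of `f` at the roots of unity
`ζ` of all orders (`IsTorsionValue`), for example the numbers `2 cos (2 π ρ)`, `ρ` rational
(`f = X + 1 / X`). These parameters are algebraic numbers of unbounded degree and of bounded
height. A rational number `α` is called admissible if `f (x) ≠ α` for all complex numbers `x` of
absolute value `1`, and `f (x) = α` for at least one `x ≠ 0`. For example for `f = X + 1 / X` the
`α` with `|α| > 2` are admissible (theorems `cheb_value` and `cheb_admissible` in
`Pool.Agent.V1138.FZ.Ex`), and for `f = X` the `α` with `|α| ≠ 0, 1`.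

The family degenerates at the admissible rational values `t = α_1, …, α_M` of the parameter in
the following sense:
* no point of `B_{α_l}` lies on `m + 1` of the divisors of the `f_i` (at `t = α_l`), and
* the `c_i` have zeros at `α_l`, of orders `e_{l i} > 0`, and these orders are independent:
  `q e_{l i} e_{l j} e_{l' i} e_{l' j}` is not a square for `l ≠ l'`, `i ≠ j`, `1 ≤ q ≤ T^8`, where
  `T` bounds the degrees of the `R_i` (`T = 1` for level one).

**Theorem.**
1. If `M ≥ n (n - 1) / 2 + 1` then for all but finitely many `t = f (ζ)` the set `X_t`
   has no atypical intersection with special subvarieties `Z` of `Y(1)^n`: every irreducible closed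
   subset of `X_t ∩ Z` has dimension at most `dim Z + m - n`, and the same bound holds for the
   transcendence degrees of the points of `X_t ∩ Z` over `K`.
2. If `m = 1` (families of curves) and only `M ≥ 4`, for any `n`, then for all but finitely many
   `t = f (ζ)` the set `X_t` has no point at all on special subvarieties of codimension at
   least two.

The constant coordinates of `Z` can be special points or integral over the ring generated by any
given finite subset `Γ` of `K`. The degree of `t` is unbounded. The local criterion is that of the
starting file `MP_d83ecd_ag.AlgebraicParameters`, which treats parameters of bounded degree, the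
numbers `t` with a rational power, and roots of unity.

**The arithmetic** (`Pool.Agent.V1138.FZ`). If `α = u / v` is admissible then for all roots of unity `ζ`
of large order the (homogenized) value at `α` of the minimal polynomial of `f (ζ)` has a prime factor
larger than a given number `D`. The polynomial `h = u Q - v P` has no zeros on the unit circle, and
after division by its content its Mahler measure `μ` is larger than `1` (Kronecker). The resultant
of `h` and the `n`-th cyclotomic polynomial `Φ_n` has at least the size `μ ^ φ(n)` up to a constant.
Its part at the primes `p ≤ D` is bounded: if `Φ_n (β)`, `β` a zero of `h`, is divisible at a place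
above `p` by more than `p` then `n` is the order of `β` modulo this divisor.
-/

set_option autoImplicit false

namespace Pool.Agent.Results.MP_d83ecd_ag.TorsionValues

open MvPolynomial
open Pool.Agent.Y152.RP.Fam (SpecialVariety NoAtypical InGeneralPosition scaledImage
  IndependentExponents)

/-- `t` is the value of `P / Q` at a root of unity. -/
def IsTorsionValue (P Q : Polynomial ℤ) (t : ℂ) : Prop :=
  ∃ ζ : ℂ, (∃ n : ℕ, 0 < n ∧ ζ ^ n = 1) ∧ Polynomial.aeval ζ Q ≠ 0 ∧
    t = Polynomial.aeval ζ P / Polynomial.aeval ζ Q

/-- `P` and `Q` have no common factor over the rational numbers. -/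
def NoCommonFactor (P Q : Polynomial ℤ) : Prop :=
  IsCoprime (P.map (Int.castRingHom ℚ)) (Q.map (Int.castRingHom ℚ))

/-- `P / Q` does not take the value `α` on the unit circle, and takes it at a nonzero number. -/
def Admissible (P Q : Polynomial ℤ) (α : ℚ) : Prop :=
  (∀ x : ℂ, ‖x‖ = 1 → Polynomial.aeval x P ≠ (α : ℂ) * Polynomial.aeval x Q) ∧
    ∃ x : ℂ, x ≠ 0 ∧ Polynomial.aeval x P = (α : ℂ) * Polynomial.aeval x Q

/-- One-parameter families which degenerate at sufficiently many admissible rational parameters: all
but finitely many of the members with parameters `P (ζ) / Q (ζ)` have no atypical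
intersection with special subvarieties. -/
theorem result (K : Subfield ℂ) [Countable K] (κ : Type) [Finite κ] (N n m M T : ℕ)
    (G : κ → MvPolynomial (Fin (N + 1)) (Polynomial K)) (hG : ∀ k, ∃ e, (G k).IsHomogeneous e)
    (A B : Fin n → MvPolynomial (Fin (N + 1)) (Polynomial K)) (δ : Fin n → ℕ)
    (hA : ∀ i, (A i).IsHomogeneous (δ i)) (hB : ∀ i, (B i).IsHomogeneous (δ i))
    (R : Fin n → Polynomial (Polynomial K)) (hR : ∀ i, (R i).Monic)
    (hT : ∀ i u w, ((R i).coeff u).coeff w ≠ 0 → u ≤ T ∧ w ≤ T)
    (c : Fin n → Polynomial K) (α : Fin M → ℚ)
    (hind : IndependentExponents T fun l i => (c i).rootMultiplicity ((α l : ℚ) : K))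
    (hpos : ∀ l, InGeneralPosition ((α l : ℚ) : ℂ) m G A B) (Γ : Finset ℂ)
    (hΓ : ∀ γ ∈ Γ, γ ∈ K)
    (P Q : Polynomial ℤ) (hPQ : NoCommonFactor P Q) (hα : ∀ l, Admissible P Q (α l)) :
    (n.choose 2 + 1 ≤ M →
      {t : ℂ | IsTorsionValue P Q t ∧ ¬ NoAtypical
        (algebraMap (Algebra.adjoin ℤ (Γ : Set ℂ)) ℂ) K m (scaledImage t G A B R c)}.Finite) ∧
    (m = 1 → 4 ≤ M →
      {t : ℂ | IsTorsionValue P Q t ∧ ∃ (r : ℕ)
        (Z : SpecialVariety (algebraMap (Algebra.adjoin ℤ (Γ : Set ℂ)) ℂ) n r),
        r + 2 ≤ n ∧ (scaledImage t G A B R c ∩ Z.locus).Nonempty}.Finite) := by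
  obtain ⟨h1, h2⟩ := Pool.Agent.Y152.RP.Fam.family K κ N n m M T G hG A B δ hA hB R hR hT c α hind
    hpos Γ hΓ {t | IsTorsionValue P Q t}
    (fun t ht => Pool.Agent.V1138.FZ.alg_of_value P Q t ht)
  exact ⟨fun hM => h1 hM fun D => Pool.Agent.V1138.FZ.finite_badF D hM α P Q hPQ
      (fun l => (hα l).1) fun l => (hα l).2,
    fun hm hM => h2 hm hM fun D => Pool.Agent.V1138.FZ.finite_badF D hM α P Q hPQ
      (fun l => (hα l).1) fun l => (hα l).2⟩

end Pool.Agent.Results.MP_d83ecd_ag.TorsionValues
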